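import Pool.Agent.R179.Fac.Final
import Pool.Agent.R126.FacA
import Pool.Agent.R126.FacE1
import Pool.Agent.R515.FacB
import Pool.Agent.R906.FacV
import Pool.Agent.R906.FacC
import Pool.Agent.R310.FacE2
import Pool.Agent.R310.FacE3

/-!
# Facet-representing point sets on centrally symmetric polytopes (`MP_688354_co`)

`L d` is the supremum, over centrally symmetric convex polytopes `P` in `ℝ^d` with nonempty
interior, of the least number of boundary points meeting every facet of `P`, divided by the number
of facets of `P`.  We show `L 3 = 2/3` and `L d = 1` for all `d ≥ 4`.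
-/

namespace Pool.Agent.Results.MP_688354_co.AllDimensions

open Pool.Agent.R179.Fac

theorem result : L 3 = 2 / 3 ∧ ∀ d : ℕ, 4 ≤ d → L d = 1 :=
  final Pool.Agent.R126.Fac.a1_ok (b1_of Pool.Agent.R906.FacV.v_ok)
    (b2_of Pool.Agent.R906.FacV.v_ok) Pool.Agent.R906.FacC.c_ok
    (Pool.Agent.R126.Fac.e1_of Pool.Agent.R126.Fac.a2_ok)
    Pool.Agent.R310.Fac.e2_ok Pool.Agent.R310.Fac.e3_ok

end Pool.Agent.Results.MP_688354_co.AllDimensions
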